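import Pool.Agent.H91.SlitCIA

set_option autoImplicit false

open Complex Metric Set H91.SlitCIA in
theorem Pool.Agent.Results.MP_d2819f_an.SlitFails.result :
    ∃ f : ℂ → ℂ, AnalyticOnNhd ℂ f (ball 0 1) ∧ InjOn f (ball 0 1) ∧ f 0 = 0 ∧
    deriv f 0 = 1 ∧ CIA (f '' ball 0 1) ∧
    (∀ p ∈ f '' ball 0 1 \ {w | w.im = 0},
      (0 : ℂ) ∈ frontier (connectedComponentIn (f '' ball 0 1 \ {w | w.im = 0}) p)) ∧
    ∃ r : ℝ, 0 < r ∧ r < 1 ∧ ¬ CIA (f '' ball 0 r) :=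
  main
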